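import Mathlib

/-!
# Arc bijections of strong tournaments preserving 4-circuits

For every `n ≥ 5` there are two strong tournaments on `n` vertices and a bijection between
their arc sets which maps 4-circuits into 4-circuits, although the second tournament is
isomorphic neither to the first one nor to its converse.
-/

namespace Pool.Agent.Results.MP_ebd9af_co.FourCircuits

/-- A tournament on the vertex set `V`: no loops, and exactly one arc between two distinct
vertices. -/
structure Tournament (V : Type) where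
  /-- `arc u v` says that the arc goes from `u` to `v`. -/
  arc : V → V → Prop
  loopless : ∀ v, ¬ arc v v
  oneArc : ∀ u v, u ≠ v → (arc u v ↔ ¬ arc v u)

variable {V W : Type}

/-- The set of arcs, as a type of ordered pairs. -/
def Tournament.Arcs (T : Tournament V) : Type := {p : V × V // T.arc p.1 p.2}

/-- Strongly connected: a directed path from every vertex to every vertex. -/
def Tournament.Strong (T : Tournament V) : Prop := ∀ u v, Relation.ReflTransGen T.arc u v

/-- The converse tournament: every arc is reversed. -/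
def Tournament.converse (T : Tournament V) : Tournament V where
  arc u v := T.arc v u
  loopless := T.loopless
  oneArc u v h := T.oneArc v u h.symm

/-- Isomorphic tournaments. -/
def Tournament.Iso (T : Tournament V) (S : Tournament W) : Prop :=
  ∃ σ : V ≃ W, ∀ u v, T.arc u v ↔ S.arc (σ u) (σ v)

/-- `C` is the set of arcs of a directed cycle of length `k`. -/
def Tournament.IsCircuit (T : Tournament V) (k : ℕ) (C : Set T.Arcs) : Prop :=
  ∃ v : ZMod k → V, Function.Injective v ∧ (∀ i, T.arc (v i) (v (i + 1))) ∧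
    C = {e : T.Arcs | ∃ i, e.1 = (v i, v (i + 1))}

/-- First tournament: `i → i + 1`, and `i → j` whenever `j ≤ i - 2`. -/
def T1 (n : ℕ) : Tournament (Fin n) where
  arc i j := j.val = i.val + 1 ∨ j.val + 2 ≤ i.val
  loopless v := by omega
  oneArc u v h := by
    have : u.val ≠ v.val := fun h' => h (Fin.ext h')
    omega

/-- Second tournament: the first one with the arc between `n - 1` and `0` reversed. -/
def T2 (n : ℕ) (hn : 5 ≤ n) : Tournament (Fin n) where
  arc i j := j.val = i.val + 1 ∨ (j.val + 2 ≤ i.val ∧ ¬ (i.val = n - 1 ∧ j.val = 0)) ∨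
    (i.val = 0 ∧ j.val = n - 1)
  loopless v := by omega
  oneArc u v h := by
    have : u.val ≠ v.val := fun h' => h (Fin.ext h')
    omega

lemma up {n : ℕ} (R : Fin n → Fin n → Prop) (hR : ∀ i j : Fin n, j.val = i.val + 1 → R i j)
    (i : Fin n) : ∀ (k : ℕ) (hk : i.val + k < n), Relation.ReflTransGen R i ⟨i.val + k, hk⟩ := by
  intro k
  induction k with
  | zero => intro hk; exact Relation.ReflTransGen.refl
  | succ k ih =>
    intro hk
    have h1 := ih (by omega)
    exact h1.tail (hR _ _ (by simp; omega))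

lemma up' {n : ℕ} (R : Fin n → Fin n → Prop) (hR : ∀ i j : Fin n, j.val = i.val + 1 → R i j)
    (i j : Fin n) (h : i.val ≤ j.val) : Relation.ReflTransGen R i j := by
  have := up R hR i (j.val - i.val) (by have := j.isLt; omega)
  have e : (⟨i.val + (j.val - i.val), by have := j.isLt; omega⟩ : Fin n) = j := by
    apply Fin.ext; simp; omega
  rwa [e] at this

lemma strong1 {n : ℕ} (hn : 5 ≤ n) : (T1 n).Strong := by
  intro u v
  have a := up' (T1 n).arc (fun i j h => Or.inl h) u ⟨n - 1, by omega⟩ (by have := u.isLt; simp; omega)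
  have b : (T1 n).arc ⟨n - 1, by omega⟩ ⟨0, by omega⟩ := Or.inr (by simp; omega)
  have c := up' (T1 n).arc (fun i j h => Or.inl h) ⟨0, by omega⟩ v (by simp)
  exact (a.tail b).trans c

lemma strong2 {n : ℕ} (hn : 5 ≤ n) : (T2 n hn).Strong := by
  intro u v
  have a := up' (T2 n hn).arc (fun i j h => Or.inl h) u ⟨n - 1, by omega⟩
    (by have := u.isLt; simp; omega)
  have b : (T2 n hn).arc ⟨n - 1, by omega⟩ ⟨1, by omega⟩ := Or.inr (Or.inl (by simp; omega))
  have b' : (T2 n hn).arc ⟨1, by omega⟩ ⟨2, by omega⟩ := Or.inl (by simp)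
  have b'' : (T2 n hn).arc ⟨2, by omega⟩ ⟨0, by omega⟩ := Or.inr (Or.inl (by simp; omega))
  have c := up' (T2 n hn).arc (fun i j h => Or.inl h) ⟨0, by omega⟩ v (by simp)
  exact (((a.tail b).tail b').tail b'').trans c

/-- The bijection: the arc `(n - 1, 0)` goes to `(0, n - 1)`, all the other arcs stay. -/
def phi (n : ℕ) (hn : 5 ≤ n) : (T1 n).Arcs ≃ (T2 n hn).Arcs where
  toFun e := if h : e.1.1.val = n - 1 ∧ e.1.2.val = 0 then
      ⟨(e.1.2, e.1.1), Or.inr (Or.inr ⟨h.2, h.1⟩)⟩
    else ⟨e.1, by
      have := e.2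
      simp only [T1] at this
      simp only [T2]
      omega⟩
  invFun e := if h : e.1.1.val = 0 ∧ e.1.2.val = n - 1 then
      ⟨(e.1.2, e.1.1), Or.inr (by simp only; omega)⟩
    else ⟨e.1, by
      have := e.2
      simp only [T2] at this
      simp only [T1]
      omega⟩
  left_inv e := by
    by_cases h : e.1.1.val = n - 1 ∧ e.1.2.val = 0
    · simp only [h, and_self, ↓reduceDIte]
      rfl
    · have h' : ¬ (e.1.1.val = 0 ∧ e.1.2.val = n - 1) := by
        have := e.2
        simp only [T1] at this
        omega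
      simp only [h, h', ↓reduceDIte]
      rfl
  right_inv e := by
    by_cases h : e.1.1.val = 0 ∧ e.1.2.val = n - 1
    · simp only [h, and_self, ↓reduceDIte]
      rfl
    · have h' : ¬ (e.1.1.val = n - 1 ∧ e.1.2.val = 0) := by
        have := e.2
        simp only [T2] at this
        omega
      simp only [h, h', ↓reduceDIte]
      rfl

lemma phi_circuit (n : ℕ) (hn : 5 ≤ n) (C : Set (T1 n).Arcs) (hC : (T1 n).IsCircuit 4 C) :
    (T2 n hn).IsCircuit 4 (phi n hn '' C) := by
  obtain ⟨v, hinj, harc, rfl⟩ := hC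
  -- the long backward arc is in no 4-circuit
  have key : ∀ i : ZMod 4, ¬ ((v i).val = n - 1 ∧ (v (i + 1)).val = 0) := by
    rintro i ⟨h1, h2⟩
    have a1 := harc (i + 1)
    have a2 := harc (i + 1 + 1)
    have a3 := harc (i + 1 + 1 + 1)
    have e4 : i + 1 + 1 + 1 + 1 = i := by
      have : (1 : ZMod 4) + 1 + 1 + 1 = 0 := by decide
      calc i + 1 + 1 + 1 + 1 = i + (1 + 1 + 1 + 1) := by ring
        _ = i := by rw [this, add_zero]
    rw [e4] at a3
    simp only [T1] at a1 a2 a3
    omega
  have harc2 : ∀ i, (T2 n hn).arc (v i) (v (i + 1)) := by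
    intro i
    have a := harc i
    have k := key i
    simp only [T1] at a
    simp only [T2]
    omega
  have hphi : ∀ i, phi n hn ⟨(v i, v (i + 1)), harc i⟩ = ⟨(v i, v (i + 1)), harc2 i⟩ := by
    intro i
    have k := key i
    exact dif_neg k
  refine ⟨v, hinj, harc2, ?_⟩
  ext e
  constructor
  · rintro ⟨f, ⟨i, hi⟩, rfl⟩
    refine ⟨i, ?_⟩
    have : f = ⟨(v i, v (i + 1)), harc i⟩ := Subtype.ext hi
    rw [this, hphi]
  · rintro ⟨i, hi⟩
    refine ⟨⟨(v i, v (i + 1)), harc i⟩, ⟨i, rfl⟩, ?_⟩
    rw [hphi]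
    exact (Subtype.ext hi).symm

/-- In the second tournament, the vertex `1` is the only one with exactly one out-neighbour. -/
lemma unique_score_one (n : ℕ) (hn : 5 ≤ n) (x : Fin n) (hx : ∃! y, (T2 n hn).arc x y) :
    x.val = 1 := by
  obtain ⟨y, hy, huniq⟩ := hx
  by_contra hne
  have two : ∀ a b : Fin n, a.val ≠ b.val → (T2 n hn).arc x a → (T2 n hn).arc x b → False := by
    intro a b hab ha hb
    apply hab
    rw [huniq a ha, huniq b hb]
  have hxl := x.isLt
  by_cases h0 : x.val = 0
  · exact two ⟨1, by omega⟩ ⟨n - 1, by omega⟩ (by simp; omega) (Or.inl (by simp; omega))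
      (Or.inr (Or.inr ⟨h0, rfl⟩))
  · by_cases hl : x.val = n - 1
    · exact two ⟨1, by omega⟩ ⟨2, by omega⟩ (by simp) (Or.inr (Or.inl (by simp; omega)))
        (Or.inr (Or.inl (by simp; omega)))
    · exact two ⟨0, by omega⟩ ⟨x.val + 1, by omega⟩ (by simp)
        (Or.inr (Or.inl (by simp; omega))) (Or.inl rfl)

/-- **Result.** For every `n ≥ 5` there are strong tournaments `T₁`, `T₂` on `n` vertices and a
bijection of their arc sets mapping 4-circuits into 4-circuits, with `T₂` isomorphic neither to
`T₁` nor to the converse of `T₁`. -/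
theorem result : ∀ n : ℕ, 5 ≤ n → ∃ T₁ T₂ : Tournament (Fin n),
    T₁.Strong ∧ T₂.Strong ∧
    (∃ φ : T₁.Arcs ≃ T₂.Arcs, ∀ C : Set T₁.Arcs, T₁.IsCircuit 4 C → T₂.IsCircuit 4 (φ '' C)) ∧
    ¬ T₂.Iso T₁ ∧ ¬ T₂.Iso T₁.converse := by
  intro n hn
  refine ⟨T1 n, T2 n hn, strong1 hn, strong2 hn, ⟨phi n hn, phi_circuit n hn⟩, ?_, ?_⟩
  · rintro ⟨σ, hσ⟩
    have h0 : (σ.symm ⟨0, by omega⟩).val = 1 := by
      apply unique_score_one n hn
      refine ⟨σ.symm ⟨1, by omega⟩, ?_, ?_⟩
      · show (T2 n hn).arc _ _
        rw [hσ]; simp [T1]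
      · intro y hy
        rw [hσ] at hy
        rw [Equiv.eq_symm_apply]
        apply Fin.ext
        simp [T1] at hy
        simpa using hy
    have h1 : (σ.symm ⟨1, by omega⟩).val = 1 := by
      apply unique_score_one n hn
      refine ⟨σ.symm ⟨2, by omega⟩, ?_, ?_⟩
      · show (T2 n hn).arc _ _
        rw [hσ]; simp [T1]
      · intro y hy
        rw [hσ] at hy
        rw [Equiv.eq_symm_apply]
        apply Fin.ext
        simp [T1] at hy
        omega
    have : σ.symm ⟨0, by omega⟩ = σ.symm ⟨1, by omega⟩ := Fin.ext (h0.trans h1.symm)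
    have := σ.symm.injective this
    simp at this
  · rintro ⟨σ, hσ⟩
    have h0 : (σ.symm ⟨n - 1, by omega⟩).val = 1 := by
      apply unique_score_one n hn
      refine ⟨σ.symm ⟨n - 2, by omega⟩, ?_, ?_⟩
      · show (T2 n hn).arc _ _
        rw [hσ]; simp [T1, Tournament.converse]; omega
      · intro y hy
        rw [hσ] at hy
        rw [Equiv.eq_symm_apply]
        apply Fin.ext
        have := (σ y).isLt
        simp [T1, Tournament.converse] at hy ⊢
        omega
    have h1 : (σ.symm ⟨n - 2, by omega⟩).val = 1 := by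
      apply unique_score_one n hn
      refine ⟨σ.symm ⟨n - 3, by omega⟩, ?_, ?_⟩
      · show (T2 n hn).arc _ _
        rw [hσ]; simp [T1, Tournament.converse]; omega
      · intro y hy
        rw [hσ] at hy
        rw [Equiv.eq_symm_apply]
        apply Fin.ext
        have := (σ y).isLt
        simp [T1, Tournament.converse] at hy ⊢
        omega
    have : σ.symm ⟨n - 1, by omega⟩ = σ.symm ⟨n - 2, by omega⟩ := Fin.ext (h0.trans h1.symm)
    have := σ.symm.injective this
    simp at this
    omega

end Pool.Agent.Results.MP_ebd9af_co.FourCircuits
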